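import Mathlib
import Pool.Agent.W484.AH.VarMain

/-!
# The noncommutative variational Hodge conjecture for products with abelian varieties with complex
multiplication

`C` is an arbitrary `S`-linear admissible subcategory of `D_perf (X)`, `X → S` smooth and proper.
`H 0` and `H 1` are the spaces of global sections of the local systems `K_0^top (C/S) ⊗ ℚ` and
`K_1^top (C/S) ⊗ ℚ`; they have Hodge structures such that the evaluation at every point `s` is an
injective morphism to the Hodge structure `K_b^top (C_s) ⊗ ℚ` (they are direct summands of the
corresponding spaces for `D_perf (X)`, where this is the global invariant cycle theorem).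
`(D b).part p` is the subspace of type `(p, *)` of `ℂ ⊗ H b`.

`A i` (`i` in a finite or infinite index set) are abelian varieties with complex multiplication by
the CM fields `K i`; the first cohomology group of `A i` is identified with `K i`, and `Φ` is the
union of the CM types. We suppose that the Galois group of the compositum of the fields contains all
the sign changes (`SignChanges`).

The family of categories is `C ⊠ D_perf (A)`, where `A` is a product of powers of the `A i`. Its
topological K-theory is rationally the sum of the tensor products of `K_b^top (C/S)` and
`K_b^top (A)`, and `K_b^top (A) ⊗ ℚ` is the direct sum of Tate twists of tensor products of the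
`H¹ (A i)`.

For a point `s` of the base `AlgebraicClasses` is the following pair: `base` is the space of the
elements of `H b` whose value at `s` is in the image of `K_0` (`b = 0`; for `b = 1` we take the
values at products of divisor tensors), and `total a j` is the space of the global sections of the
component `K_b^top (C/S) ⊗ H¹ (A (j 1)) ⊗ ⋯ ⊗ H¹ (A (j a))` which are algebraic at `s`. The condition
`value` holds because the multiplication with products of divisor classes on `A` and the push
forward from `C_s ⊠ D_perf (A)` to `C_s` map algebraic classes to algebraic classes.

The theorem: outside a set of at most `∑ b, dim H b` indices, if all elements of `H b` which are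
algebraic at the point `0` are algebraic at the point `s` (the noncommutative variational Hodge
conjecture for `C`), then the same holds for `C ⊠ D_perf (A)`, for all products `A` of powers of
abelian varieties `A i`. It is unconditional for example if the Hodge conjecture is known for the
fibres of `X`, for instance for the Kuznetsov components of families of cubic fourfolds.
-/

set_option autoImplicit false

open Module

namespace Pool.Agent.Results.MP_298761_ag.AlmostAllCMFactors

open Pool.Agent.W484.AH

theorem result {ι : Type} {K : ι → Type} [∀ i, Field (K i)] [∀ i, NumberField (K i)]
    [∀ i, NumberField.IsCMField (K i)] {Φ : Set (Emb K)} (hΦ : IsCMType Φ) (hS : SignChanges K)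
    (H : Fin 2 → Type) [∀ b, AddCommGroup (H b)] [∀ b, Module ℚ (H b)]
    [∀ b, Module.Finite ℚ (H b)] (D : ∀ b, HodgeData (H b)) :
    ∃ S : Finset ι, S.card ≤ finrank ℚ (H 0) + finrank ℚ (H 1) ∧
      ∀ (b : Fin 2) (P P' : AlgebraicClasses Φ (D b)), P.base ≤ P'.base →
        ∀ (a : ℕ) (j : Fin a → ι), (∀ t, j t ∉ S) → P.total a j ≤ P'.total a j := by
  obtain ⟨S, h1, h2⟩ := mainVar hΦ hS H D
  exact ⟨S, by simpa [Fin.sum_univ_two] using h1, h2⟩

end Pool.Agent.Results.MP_298761_ag.AlmostAllCMFactors
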